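import Mathlib
import Pool.Agent.N870.H.Stm
import Pool.Agent.TH841.PM.Expt
import Pool.Agent.TH841.PM.Exp
import Pool.Agent.TH841.PT.Merge
import Pool.Agent.TH841.TR.Fin
import Pool.Agent.N222.D.ATX
import Pool.Agent.N263.D.CMB

/-!
# Project H: the main average for constants (H/MAKH)

As `Pool.Agent.N870.D.makd`, with the numbers of the roots of a given type replaced by the indicator
functions of the types of constants.
-/

set_option autoImplicit false

namespace Pool.Agent.N383.H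

open Finset Polynomial Pool.Agent.W262.RK Pool.Agent.W307.RT Pool.Agent.W307.RS
open Pool.Agent.TH841.PT Pool.Agent.TH841.PM Pool.Agent.TH841.TR

open Pool.Agent.H474R2.PG (rho)

open Pool.Agent.W307.FK (dt)

open Pool.Agent.N870.D

open Pool.Agent.N870.H (gκ)

section

variable {J : Type} [Fintype J] [DecidableEq J]

/-- the constant of the index -/
noncomputable def kc (cls : J → Fin 3) (κ : J → ℤ) {k : ℕ} (i : IK4 (c4 cls) k) : ℤ :=
  κ i.1.1 ^ dt k (ph cls i).2.1 (ph cls i).2.2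

/-- the weights with signs -/
noncomputable def awH (cls : J → Fin 3) (κ : J → ℤ) (z : ℕ) {k : ℕ}
    (i : IK4 (c4 cls) k) (p : ℕ) : ℝ :=
  if p.Prime ∧ z < p then wK (c4 cls) i * rhoc X (C (kc cls κ i)) p else 0

lemma awH_abs (cls : J → Fin 3) (κ : J → ℤ) (z : ℕ) {k : ℕ} (i : IK4 (c4 cls) k)
    (p : ℕ) : |awH cls κ z i p| ≤ bwK (c4 cls) (fun _ => X) z i p := by
  unfold awH bwK
  split_ifs
  · rw [abs_mul, abs_of_pos (wK_pos (c4 cls) i)]
    exact mul_le_mul_of_nonneg_left (rhoc_abs _ _ _) (wK_pos (c4 cls) i).le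
  · simp

lemma roots_X {p : ℕ} (hp : p.Prime) :
    (range p).filter (fun a : ℕ => (p : ℤ) ∣ (X : ℤ[X]).eval (a : ℤ)) = {0} := by
  ext a
  rw [mem_filter, mem_range, mem_singleton, eval_X]
  constructor
  · rintro ⟨h1, h2⟩
    have h3 : p ∣ a := by exact_mod_cast h2
    exact Nat.eq_zero_of_dvd_of_lt h3 h1
  · rintro rfl
    exact ⟨hp.pos, by simp⟩

lemma rho_X {p : ℕ} (hp : p.Prime) : rho (X : ℤ[X]) p = 1 := by
  unfold rho
  rw [roots_X hp, card_singleton]

lemma rhoc_X {p : ℕ} (hp : p.Prime) (c : ℤ) : rhoc (X : ℤ[X]) (C c) p = Jr c p := by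
  unfold rhoc
  rw [roots_X hp, sum_singleton, eval_C]

lemma sum_typesH {cls : J → Fin 3} {κ : J → ℤ} (hκ : ∀ j, κ j ≠ 0) {z : ℕ}
    (hz : ∀ j, (κ j).natAbs ≤ z) {k : ℕ} (i : IK4 (c4 cls) k) (p : ℕ) :
    Jr (κK4 (c4 cls) i) p * ∑ θ : Ty, wK (c4 cls) i *
      ((if bK (c4 cls) (fun _ => θ) i then -1 else 1) * gκ κ z (i.1.1, θ) p) =
      awH cls κ z i p := by
  unfold awH
  by_cases h1 : p.Prime ∧ z < p
  · rw [if_pos h1, rhoc_X h1.1]
    have hg : ∀ θ : Ty, gκ κ z (i.1.1, θ) p =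
        if θ = (fun _ => sg0 p (κ i.1.1)) then 1 else 0 := by
      intro θ
      unfold gκ
      by_cases h2 : θ = (fun _ => sg0 p (κ i.1.1))
      · rw [if_pos ⟨h1.1, h1.2, h2⟩, if_pos h2]
      · rw [if_neg (fun h => h2 h.2.2), if_neg h2]
    simp only [hg, mul_ite, mul_one, mul_zero]
    rw [sum_ite_eq' univ, if_pos (mem_univ _)]
    have hk4 : κK4 (c4 cls) i = 1 := by
      rw [κK4_eq]
      refine prod_eq_one fun b _ => ?_
      have : Pool.Agent.TH841.PM.mt (c4 cls i.1.1) (i.1.2.1 b) (i.1.2.2 b) = false := by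
        unfold Pool.Agent.TH841.PM.mt
        rw [decide_eq_false (c4_ne cls _)]
        rfl
      rw [this]
      rfl
    have hsg : Jr (κ i.1.1) p = if sg0 p (κ i.1.1) = true then (-1 : ℝ) else 1 := by
      have h2 : jacobiSym (κ i.1.1) p = 1 ∨ jacobiSym (κ i.1.1) p = -1 := by
        rcases jacobiSym.trichotomy (κ i.1.1) p with h | h | h
        · exfalso
          have : Fact p.Prime := ⟨h1.1⟩
          rw [← jacobiSym.legendreSym.to_jacobiSym, legendreSym.eq_zero_iff,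
            ZMod.intCast_zmod_eq_zero_iff_dvd] at h
          have h3 : p ∣ (κ i.1.1).natAbs := Int.natCast_dvd.1 h
          have h4 := Nat.le_of_dvd (Int.natAbs_pos.2 (hκ _)) h3
          have h5 := hz i.1.1
          omega
        · exact Or.inl h
        · exact Or.inr h
      unfold Jr sg0
      rcases h2 with h | h
      · rw [h]
        norm_num
      · rw [h]
        norm_num
    rw [hk4, Jr_one_left', one_mul]
    have hbK : (if bK (c4 cls) (fun _ => fun _ => sg0 p (κ i.1.1)) i = true then (-1 : ℝ) else 1) =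
        Jr (kc cls κ i) p := by
      unfold bK
      rw [par_sign]
      have h2 : kc cls κ i = ∏ b, (if (!(decide (i.1.2.1 b = (false, false))) &&
          !(decide (i.1.2.2 b = (false, false)))) = true then κ i.1.1 else 1) := by
        rw [← prod_filter, prod_const]
        rfl
      rw [h2, Pool.Agent.TH841.PM.Jr_prod_left]
      refine prod_congr rfl fun b _ => ?_
      rw [Jr_ite, hsg]
      unfold bt
      rw [if_neg (c4_ne cls _)]
      exact ite_and_sign _ _
    rw [← hbK]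
    split_ifs <;> ring
  · rw [if_neg h1]
    have hg : ∀ θ : Ty, gκ κ z (i.1.1, θ) p = 0 := by
      intro θ
      unfold gκ
      rw [if_neg fun h => h1 ⟨h.1, h.2.1⟩]
    simp [hg]

omit [Fintype J] [DecidableEq J] in
lemma kc_ne {cls : J → Fin 3} {κ : J → ℤ} (hκ : ∀ j, κ j ≠ 0) {k : ℕ} (i : IK4 (c4 cls) k) :
    kc cls κ i ≠ 0 := pow_ne_zero _ (hκ _)

lemma X_ndvd {c : ℤ} (hc : c ≠ 0) :
    ¬ ((X : ℤ[X]).map (Int.castRingHom ℚ)) ∣ (C c : ℤ[X]).map (Int.castRingHom ℚ) := by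
  rw [Polynomial.map_X, Polynomial.map_C, X_dvd_iff, coeff_C_zero]
  simpa using hc

lemma nsqg_X {c : ℤ} (hc : ∀ q : ℚ, q ^ 2 ≠ c) : NSqg (X : ℤ[X]) (C c) 1 := by
  intro q hq
  rw [Polynomial.map_X, Polynomial.map_C, X_dvd_iff, coeff_zero_eq_eval_zero] at hq
  apply hc (q.eval 0)
  simp only [eval_sub, eval_pow, eval_mul, eval_C, Int.cast_one, one_mul] at hq
  rw [sub_eq_zero.1 hq]
  simp

lemma nsq_pow {a : ℤ} (ha : a ≠ 0) (hs : ¬ IsSquare a) (r : ℕ) (q : ℚ) :
    q ^ 2 ≠ ((a ^ (2 * r + 1) : ℤ) : ℚ) := by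
  intro h
  apply hs
  rw [← Rat.isSquare_intCast_iff]
  refine ⟨q / (a : ℚ) ^ r, ?_⟩
  have ha' : (a : ℚ) ≠ 0 := by exact_mod_cast ha
  rw [← sq, div_pow, h]
  push_cast
  rw [← pow_mul, mul_comm r 2, pow_succ, mul_comm, mul_div_assoc, div_self (pow_ne_zero _ ha'),
    mul_one]

lemma nsqg_kc {cls : J → Fin 3} {κ : J → ℤ} (hκ : ∀ j, κ j ≠ 0) {sp : J → Bool}
    (hsp : ∀ j, sp j = false → ¬ IsSquare (κ j)) {k : ℕ} {i : IK4 (c4 cls) k}
    (hi : i ∈ ZK cls sp k) : NSqg (X : ℤ[X]) (C (kc cls κ i)) 1 := by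
  have h1 := (mem_filter.1 (mem_filter.1 hi).2).2
  have h2 : dt k (ph cls i).2.1 (ph cls i).2.2 % 2 = 1 := h1.2
  have h3 : sp i.1.1 = false := h1.1
  refine nsqg_X fun q => ?_
  unfold kc
  obtain ⟨r, hr⟩ : ∃ r, dt k (ph cls i).2.1 (ph cls i).2.2 = 2 * r + 1 :=
    ⟨dt k (ph cls i).2.1 (ph cls i).2.2 / 2, by omega⟩
  rw [hr]
  exact nsq_pow (hκ _) (hsp _ h3) r q

theorem makh (hats : ATXD) (hcmb : S_CMB) (hh1 : H1L) (hmer : MERGE)
    (hexp : Pool.Agent.TH841.PM.EXPK) (htw : TWG)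
    (cls : J → Fin 3) (κ : J → ℤ) (sp : J → Bool) {k : ℕ} {E : ℝ} (hk : 1 ≤ k)
    (hκ : ∀ j, κ j ≠ 0) (hsp : ∀ j, sp j = false → ¬ IsSquare (κ j))
    (hcl : ∀ c : Fin 3, ∃ j, cls j ≠ c) (hE : 0 ≤ E) (hE' : ∀ c : Fin 3, ec cls sp k c ≤ E)
    (c : ℕ) (hc : 1 ≤ c) : ∃ z0 : ℕ, ∀ z, z0 ≤ z → ∃ C : ℝ, ∀ y, z < y →
    ∑ s ∈ Tup (J × Ty) z y, NBK k (clsI (c4 cls)) eI s * ∏ i, gp (gκ κ z i) c (s i) ≤
      C * (Real.log y) ^ ((Fintype.card J : ℝ) + E) := by
  obtain ⟨hCA, hCB, hCD⟩ := cmbK hcmb cls sp hk hcl (T := Fintype.card J + E)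
    (by linarith) (fun c => by linarith [hE' c])
  have hX : Irreducible (X : ℤ[X]) := irreducible_X
  have hXd : 0 < (X : ℤ[X]).natDegree := by rw [natDegree_X]; exact one_pos
  choose E0 zt hE0 hzt using fun i : IK4 (c4 cls) k =>
    htw X hX hXd (C (kc cls κ i)) (X_ndvd (kc_ne hκ i))
  have hh : ∀ i : IK4 (c4 cls) k, ∃ z0 : ℕ, ∀ z, z0 ≤ z → ∃ C' : ℝ, i ∈ ZK cls sp k →
      ∀ y : ℕ, z < y →
      ∑ p ∈ PS z y, rhoc X (C (kc cls κ i)) p / (p : ℝ) ≤ C' := by
    intro i
    by_cases hi : i ∈ ZK cls sp k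
    · obtain ⟨z0, hz0⟩ := hh1 X hX hXd (C (kc cls κ i)) (X_ndvd (kc_ne hκ i)) (nsqg_kc hκ hsp hi)
      exact ⟨z0, fun z hz => (hz0 z hz).imp fun C hC _ => hC⟩
    · exact ⟨0, fun z _ => ⟨0, fun h => absurd h hi⟩⟩
  choose zh hzh using hh
  refine ⟨univ.sup (fun j => (κ j).natAbs) + univ.sup zt + univ.sup zh +
    (2 * c + 4 + Fintype.card (IK4 (c4 cls) k) * 2), fun z hz => ?_⟩
  have hzκ : ∀ j, (κ j).natAbs ≤ z := fun j =>
    (le_sup (f := fun j => (κ j).natAbs) (mem_univ j)).trans (by omega)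
  have hzt' : ∀ i, zt i ≤ z := fun i => (le_sup (f := zt) (mem_univ i)).trans (by omega)
  have hzh' : ∀ i, zh i ≤ z := fun i => (le_sup (f := zh) (mem_univ i)).trans (by omega)
  choose Ct hCt using fun i : IK4 (c4 cls) k => hzt i z (hzt' i)
  choose Ch hCh using fun i : IK4 (c4 cls) k => hzh i z (hzh' i)
  have hz4 : 4 ≤ z := by omega
  obtain ⟨Cs, hCs0, hCm⟩ := mert hX hXd (z := z) (by omega)
  have hEs : ∀ i, E0 i ≤ ∑ i, E0 i := fun i =>
    single_le_sum (f := E0) (fun j _ => hE0 j) (mem_univ i)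
  have hCts : ∀ i, |Ct i| ≤ ∑ i, |Ct i| := fun i =>
    single_le_sum (f := fun i => |Ct i|) (fun j _ => abs_nonneg _) (mem_univ i)
  have hChs : ∀ i, |Ch i| ≤ ∑ i, |Ch i| := fun i =>
    single_le_sum (f := fun i => |Ch i|) (fun j _ => abs_nonneg _) (mem_univ i)
  have hE0s : 0 ≤ ∑ i, E0 i := sum_nonneg fun i _ => hE0 i
  have hC0s : 0 ≤ ∑ i, |Ct i| := sum_nonneg fun i _ => abs_nonneg _
  have hC1s : 0 ≤ ∑ i, |Ch i| := sum_nonneg fun i _ => abs_nonneg _
  set K0 : ℝ := ∑ i, |Ct i| + Cs + ∑ i, |Ch i| with hK0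
  have hK00 : 0 ≤ K0 := by positivity
  have hll : ∀ y, z < y → 0 ≤ Real.log (Real.log y) := by
    intro y hy
    have h3 : (3 : ℝ) ≤ y := by exact_mod_cast (by omega : 3 ≤ y)
    apply Real.log_nonneg
    rw [Real.le_log_iff_exp_le (by linarith)]
    have := Real.exp_one_lt_d9
    linarith
  have hSb : ∀ (i : IK4 (c4 cls) k) y, Sp (bwK (c4 cls) (fun _ => X) z i) z y =
      wK (c4 cls) i * Sp (fun p => rho X p) z y := by
    intro i y
    unfold Sp
    rw [mul_sum]
    refine sum_congr rfl fun p hp => ?_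
    have hp' := mem_filter.1 hp
    unfold bwK
    rw [if_pos ⟨hp'.2, (mem_Ioc.1 hp'.1).1⟩]
    ring
  have hSl : ∀ y, z < y → Sp (fun p => rho X p) z y ≤ Real.log (Real.log y) + Cs ∧
      Real.log (Real.log y) - Cs ≤ Sp (fun p => rho X p) z y := by
    intro y hy
    have h1 := abs_le.1 (hCm y hy)
    constructor <;> linarith [h1.1, h1.2]
  set M : ℕ → ℝ := fun y => ((Fintype.card J : ℝ) + E) * (Real.log (Real.log y) + Cs) with hM
  have hMge : ∀ y, z < y → (Fintype.card J + E) * (Real.log (Real.log y) + Cs) ≤ M y :=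
    fun y _ => le_rfl
  have hSw : ∀ y, z < y → ∀ i : IK4 (c4 cls) k, Sp (bwK (c4 cls) (fun _ => X) z i) z y ≤
      wK (c4 cls) i * (Real.log (Real.log y) + Cs) := by
    intro y hy i
    rw [hSb]
    exact mul_le_mul_of_nonneg_left (hSl y hy).1 (wK_pos (c4 cls) i).le
  have hfin : ∀ y, z < y → ((Fintype.card J : ℝ) + E - 1 / 2 ^ k) *
      (Real.log (Real.log y) + Cs) ≤ M y + K0 - 1 / 2 ^ k * Real.log (Real.log y) := by
    intro y hy
    have h1 := hMge y hy
    have h2 : ((Fintype.card J : ℝ) + E - 1 / 2 ^ k) * (Real.log (Real.log y) + Cs) =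
        (Fintype.card J + E) * (Real.log (Real.log y) + Cs) -
          1 / 2 ^ k * Real.log (Real.log y) - 1 / 2 ^ k * Cs := by ring
    have h3 : 0 ≤ 1 / 2 ^ k * Cs := by positivity
    rw [h2]
    linarith
  obtain ⟨C, hC⟩ := hats 2 (by norm_num) (IK4 (c4 cls) k) (awH cls κ z)
    (bwK (c4 cls) (fun _ => X) z) (LK4 (c4 cls)) (ZK cls sp k) c z (1 / 2 ^ k) K0 (∑ i, E0 i) M
    (by
      intro i p
      unfold bwK
      split_ifs with h1
      · rw [rho_X h1.1]
        have h3 := wK_le_one (c4 cls) i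
        push_cast
        linarith
      · positivity)
    { ab := fun i p => awH_abs _ _ _ _ _
      LL := LK4_self (c4 cls)
      hz := by omega
      hδ := by positivity
      hE := hE0s
      hC := hK00
      low := by
        intro i y hy
        rw [hSb i]
        have h1 := (hSl y hy).2
        have h2 : (1 : ℝ) / 2 ^ k = wK (c4 cls) i := (wK_ph cls i).symm
        have h3 := wK_le_one (c4 cls) i
        have h4 := hll y hy
        have h5 : wK (c4 cls) i * (Real.log (Real.log y) - Cs) ≤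
            wK (c4 cls) i * Sp (fun p => rho X p) z y :=
          mul_le_mul_of_nonneg_left h1 (wK_pos (c4 cls) i).le
        rw [hK0]
        nlinarith
      H1 := by
        intro i hi y hy
        have h1 := hCh i hi y hy
        have h2 : ∑ p ∈ PS z y, awH cls κ z i p / (p : ℝ) =
            wK (c4 cls) i * ∑ p ∈ PS z y, rhoc X (Polynomial.C (kc cls κ i)) p / (p : ℝ) := by
          rw [mul_sum]
          refine sum_congr rfl fun p hp => ?_
          have hp' := mem_filter.1 hp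
          unfold awH
          rw [if_pos ⟨hp'.2, (mem_Ioc.1 hp'.1).1⟩]
          ring
        rw [h2]
        have h3 : ∑ p ∈ PS z y, rhoc X (Polynomial.C (kc cls κ i)) p / (p : ℝ) ≤ ∑ i, |Ch i| := by
          linarith [hChs i, le_abs_self (Ch i)]
        have h7 := mul_le_mul_of_nonneg_left h3 (wK_pos (c4 cls) i).le
        have h8 := mul_le_mul_of_nonneg_right (wK_le_one (c4 cls) i) hC1s
        rw [hK0]
        linarith
      H2 := by
        intro i y r e hy hr hsq hpr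
        have h1 := hCt i y r e hy hr hsq hpr
        have hlr := loglog_nonneg (by omega : 2 ≤ z) hr hpr
        have h2 : ∑ p ∈ PS z y, awH cls κ z i p * (Jr p r * x4 e p) / (p : ℝ) =
            wK (c4 cls) i * ∑ p ∈ PS z y, rhoc X (Polynomial.C (kc cls κ i)) p *
              (Jr p r * x4 e p) / (p : ℝ) := by
          rw [mul_sum]
          refine sum_congr rfl fun p hp => ?_
          have hp' := mem_filter.1 hp
          unfold awH
          rw [if_pos ⟨hp'.2, (mem_Ioc.1 hp'.1).1⟩]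
          ring
        rw [h2]
        have h3 : ∑ p ∈ PS z y, rhoc X (Polynomial.C (kc cls κ i)) p * (Jr p r * x4 e p) / (p : ℝ) ≤
            (∑ i, E0 i) * Real.log (Real.log r) + ∑ i, |Ct i| := by
          have := mul_le_mul_of_nonneg_right (hEs i) hlr
          linarith [hCts i, le_abs_self (Ct i)]
        have h5 : 0 ≤ (∑ i, E0 i) * Real.log (Real.log r) + ∑ i, |Ct i| := by positivity
        have h6 : wK (c4 cls) i * ∑ p ∈ PS z y, rhoc X (Polynomial.C (kc cls κ i)) p *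
              (Jr p r * x4 e p) / (p : ℝ) ≤ (∑ i, E0 i) * Real.log (Real.log r) + ∑ i, |Ct i| := by
          have h7 := mul_le_mul_of_nonneg_left h3 (wK_pos (c4 cls) i).le
          have h8 := mul_le_mul_of_nonneg_right (wK_le_one (c4 cls) i) h5
          linarith
        rw [hK0]
        linarith
      CA := by
        intro y hy
        have hT : 0 ≤ Real.log (Real.log y) + Cs := by have := hll y hy; positivity
        exact (hCA.scale hT (hSw y hy)).mono (hMge y hy)
      CB := by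
        intro y hy
        have hT : 0 ≤ Real.log (Real.log y) + Cs := by have := hll y hy; positivity
        refine (hCB.scale hT (hSw y hy)).mono ?_
        exact hfin y hy
      CD := by
        intro y hy
        have hT : 0 ≤ Real.log (Real.log y) + Cs := by have := hll y hy; positivity
        exact CDmono (CDscale hCD hT (hSw y hy)) (hfin y hy) }
    (by omega)
  refine ⟨C * Real.exp ((Fintype.card J + E) * Cs), fun y hy => ?_⟩
  have h1 := exptK hexp hmer (c4 cls) (gκ κ z) k c z y (by omega) (fun _ => 1)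
  simp only [sum_typesH hκ hzκ, mul_one] at h1
  rw [h1]
  have h2 := hC y hy
  have hly : 0 < Real.log y := Real.log_pos (by exact_mod_cast (by omega : 1 < y))
  have h4 : Real.exp (M y) = (Real.log y) ^ ((Fintype.card J : ℝ) + E) *
      Real.exp ((Fintype.card J + E) * Cs) := by
    rw [hM, Real.rpow_def_of_pos hly, ← Real.exp_add]
    congr 1
    ring
  rw [h4] at h2
  calc _ ≤ _ := le_abs_self _
    _ ≤ _ := h2
    _ = _ := by ring

end

theorem t_MAKH : Pool.Agent.N870.H.S_MAKH := by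
  intro J _ _ cls κ sp k E hk hκ hsp hcl hE hE' c hc
  exact makh Pool.Agent.N222.D.t_ATX Pool.Agent.N263.D.t_CMB h1l MergeF.merge EXPf.expk twg
    cls κ sp hk hκ hsp hcl hE hE' c hc

end Pool.Agent.N383.H
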